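import Mathlib
import Pool.Agent.W173.Ud2

set_option autoImplicit false

/-!
# The chromatic number of the unit distance graph on `ℚ(√3, √11) × ℚ(√3, √11)` is four

Upper bound: `33` is a square in `ℚ_2`, so `K = ℚ(√3, √11)` embeds into `L = ℚ_2(√3)`, a totally
ramified quadratic extension of `ℚ_2` with residue field `F_2`.  With `P = x + y / √3`,
`R = 2 y / √3` one has `x² + y² = P² - P R + R²`, a form that is anisotropic over `F_2`, so
`x² + y² = 1` forces `P, R` to be integral and not both in the maximal ideal.  Hence the residues of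
`P` and `R` (on cosets of the group of points with integral `P, R`) give a proper colouring with four
colours.  Lower bound: the Moser spindle has its vertices in `K × K`.
-/

namespace Pool.Agent.Results.MP_52ffe4_co.ChromaticNumberFour

open Pool.Agent.W173.Ud

/-- The field `K = ℚ(√3, √11)`, as a subfield of `ℝ`. -/
noncomputable def K : IntermediateField ℚ ℝ := IntermediateField.adjoin ℚ {√3, √11}

/-- The unit distance graph on `F × F`: two points are adjacent when they are at distance `1`. -/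
def unitDistanceGraph (F : IntermediateField ℚ ℝ) : SimpleGraph (F × F) where
  Adj p q := ((p.1 : ℝ) - (q.1 : ℝ)) ^ 2 + ((p.2 : ℝ) - (q.2 : ℝ)) ^ 2 = 1
  symm := ⟨fun p q h => by
    rw [← h]; ring⟩
  loopless := ⟨fun p h => by
    simp at h⟩

theorem sqrt3_mem : √3 ∈ K := IntermediateField.subset_adjoin ℚ _ (by simp)

theorem sqrt11_mem : √11 ∈ K := IntermediateField.subset_adjoin ℚ _ (by simp)

/-- `√3` as an element of `K` -/
noncomputable def s3 : K := ⟨√3, sqrt3_mem⟩

/-- `√11` as an element of `K` -/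
noncomputable def s11 : K := ⟨√11, sqrt11_mem⟩

theorem s3_sq : s3 ^ 2 = 3 := by
  apply Subtype.ext
  show (√3) ^ 2 = 3
  exact Real.sq_sqrt (by norm_num)

theorem s11_sq : s11 ^ 2 = 11 := by
  apply Subtype.ext
  show (√11) ^ 2 = 11
  exact Real.sq_sqrt (by norm_num)

instance : Algebra.IsAlgebraic ℚ K := by
  unfold K
  refine IntermediateField.isAlgebraic_adjoin ?_
  intro x hx
  rcases hx with rfl | hx
  · exact ⟨Polynomial.X ^ 2 - Polynomial.C 3, Polynomial.monic_X_pow_sub_C 3 (by norm_num), by simp⟩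
  · rw [Set.mem_singleton_iff] at hx
    subst hx
    exact ⟨Polynomial.X ^ 2 - Polynomial.C 11, Polynomial.monic_X_pow_sub_C 11 (by norm_num), by simp⟩

/-- an embedding of `K` into the algebraic closure of `ℚ_2` -/
noncomputable def j : K →ₐ[ℚ] Ω := IsAlgClosed.lift

theorem j_s3_sq : (j s3) ^ 2 = 3 := by
  rw [← map_pow, s3_sq, map_ofNat]

theorem j_mem (x : K) : j x ∈ E (j s3) j_s3_sq := by
  have h3 : j s3 ∈ E (j s3) j_s3_sq := ⟨0, 1, by simp⟩
  have h11 : j s11 ∈ E (j s3) j_s3_sq := by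
    obtain ⟨t, ht⟩ := exists_sqrt33
    have h1 : (j s11 * j s3) ^ 2 = (algebraMap ℚ_[2] Ω (t : ℚ_[2])) ^ 2 := by
      have h2 : (t : ℚ_[2]) ^ 2 = 33 := by exact_mod_cast congrArg (fun z : ℤ_[2] => (z : ℚ_[2])) ht
      rw [← map_pow, h2, mul_pow, ← map_pow, ← map_pow, s3_sq, s11_sq, map_ofNat, map_ofNat,
        map_ofNat]
      norm_num
    have h4 : j s11 * j s3 ∈ E (j s3) j_s3_sq := by
      rcases sq_eq_sq_iff_eq_or_eq_neg.1 h1 with h | h
      · rw [h]; exact ⟨t, 0, by simp⟩
      · rw [h]; exact ⟨-t, 0, by simp⟩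
    have h5 : j s3 ≠ 0 := by
      intro h
      have := j_s3_sq
      rw [h] at this
      have h3 : (3 : Ω) ≠ 0 := by norm_num
      apply h3
      rw [← this]
      norm_num
    have h6 : j s11 = j s11 * j s3 / j s3 := by field_simp
    rw [h6]
    exact (E _ _).div_mem h4 h3
  -- the preimage is a subfield containing the generators
  obtain ⟨x, hx⟩ := x
  have hx' := hx
  unfold K at hx'
  induction hx' using IntermediateField.adjoin_induction with
  | mem y hy =>
    rcases hy with rfl | hy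
    · exact h3
    · rw [Set.mem_singleton_iff] at hy
      subst hy
      exact h11
  | algebraMap q =>
    have : (⟨algebraMap ℚ ℝ q, hx⟩ : K) = algebraMap ℚ K q := rfl
    rw [this, AlgHom.commutes]
    exact ⟨(q : ℚ_[2]), 0, by simp⟩
  | add y z hy hz ihy ihz =>
    have hy' : y ∈ K := hy
    have hz' : z ∈ K := hz
    have : (⟨y + z, hx⟩ : K) = ⟨y, hy'⟩ + ⟨z, hz'⟩ := rfl
    rw [this, map_add]
    exact (E _ _).add_mem (ihy hy') (ihz hz')
  | inv y hy ihy =>
    have hy' : y ∈ K := hy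
    have : (⟨y⁻¹, hx⟩ : K) = (⟨y, hy'⟩ : K)⁻¹ := rfl
    rw [this, map_inv₀]
    exact (E _ _).inv_mem (ihy hy')
  | mul y z hy hz ihy ihz =>
    have hy' : y ∈ K := hy
    have hz' : z ∈ K := hz
    have : (⟨y * z, hx⟩ : K) = ⟨y, hy'⟩ * ⟨z, hz'⟩ := rfl
    rw [this, map_mul]
    exact (E _ _).mul_mem (ihy hy') (ihz hz')

theorem adj_iff (p q : K × K) :
    (unitDistanceGraph K).Adj p q ↔ (p.1 - q.1) ^ 2 + (p.2 - q.2) ^ 2 = 1 := by
  constructor
  · intro h
    apply Subtype.ext
    exact h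
  · intro h
    exact congrArg Subtype.val h

theorem colorable_four : (unitDistanceGraph K).Colorable 4 := by
  obtain ⟨c, hc⟩ := colouring (j : K →+* Ω) s3 s3_sq (fun x => j_mem x)
  have col : (unitDistanceGraph K).Coloring (Fin 2 × Fin 2) :=
    SimpleGraph.Coloring.mk c (fun {p q} h => hc p q ((adj_iff p q).1 h))
  have := col.colorable
  simpa using this

theorem fin3_aux (o a b c : Fin 3) (h1 : o ≠ a) (h2 : o ≠ b) (h3 : a ≠ b) (h4 : a ≠ c)
    (h5 : b ≠ c) : c = o := by
  omega

theorem fin3 (o a b c a' b' c' : Fin 3) (h1 : o ≠ a) (h2 : o ≠ b) (h3 : a ≠ b) (h4 : a ≠ c)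
    (h5 : b ≠ c) (h6 : o ≠ a') (h7 : o ≠ b') (h8 : a' ≠ b') (h9 : a' ≠ c') (h10 : b' ≠ c') :
    c = c' :=
  (fin3_aux o a b c h1 h2 h3 h4 h5).trans (fin3_aux o a' b' c' h6 h7 h8 h9 h10).symm

theorem not_colorable_three : ¬ (unitDistanceGraph K).Colorable 3 := by
  rintro ⟨col⟩
  have h3 := s3_sq
  have h11 := s11_sq
  -- the seven points of the Moser spindle
  let O : K × K := (0, 0)
  let A : K × K := (s3 / 2, 1 / 2)
  let B : K × K := (s3 / 2, -1 / 2)
  let C : K × K := (s3, 0)
  let A' : K × K := (s3 / 2 * (5 / 6) - 1 / 2 * (s11 / 6), s3 / 2 * (s11 / 6) + 1 / 2 * (5 / 6))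
  let B' : K × K := (s3 / 2 * (5 / 6) + 1 / 2 * (s11 / 6), s3 / 2 * (s11 / 6) - 1 / 2 * (5 / 6))
  let C' : K × K := (s3 * (5 / 6), s3 * (s11 / 6))
  have adj : ∀ p q : K × K, (p.1 - q.1) ^ 2 + (p.2 - q.2) ^ 2 = 1 → col p ≠ col q :=
    fun p q h => col.valid ((adj_iff p q).2 h)
  have h : col C = col C' := by
    refine fin3 (col O) (col A) (col B) (col C) (col A') (col B') (col C')
      (adj _ _ ?_) (adj _ _ ?_) (adj _ _ ?_) (adj _ _ ?_) (adj _ _ ?_)
      (adj _ _ ?_) (adj _ _ ?_) (adj _ _ ?_) (adj _ _ ?_) (adj _ _ ?_)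
    · simp only [O, A]; linear_combination (1 / 4 : K) * h3
    · simp only [O, B]; linear_combination (1 / 4 : K) * h3
    · simp only [A, B]; ring
    · simp only [A, C]; linear_combination (1 / 4 : K) * h3
    · simp only [B, C]; linear_combination (1 / 4 : K) * h3
    · simp only [O, A']
      linear_combination (1 / 4 * (25 + s11 ^ 2) / 36 : K) * h3 + (4 / 4 / 36 : K) * h11
    · simp only [O, B']
      linear_combination (1 / 4 * (25 + s11 ^ 2) / 36 : K) * h3 + (4 / 4 / 36 : K) * h11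
    · simp only [A', B']
      linear_combination (1 / 36 : K) * h11
    · simp only [A', C']
      linear_combination (1 / 4 * (25 + s11 ^ 2) / 36 : K) * h3 + (4 / 4 / 36 : K) * h11
    · simp only [B', C']
      linear_combination (1 / 4 * (25 + s11 ^ 2) / 36 : K) * h3 + (4 / 4 / 36 : K) * h11
  refine adj C C' ?_ h
  simp only [C, C']
  linear_combination ((1 + s11 ^ 2) / 36 : K) * h3 + (3 / 36 : K) * h11

/-- **The chromatic number of the unit distance graph on `ℚ(√3, √11) × ℚ(√3, √11)` is `4`.** -/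
theorem result : (unitDistanceGraph K).chromaticNumber = 4 := by
  have h1 : (unitDistanceGraph K).chromaticNumber ≤ 4 := colorable_four.chromaticNumber_le
  have h2 : ¬ (unitDistanceGraph K).chromaticNumber ≤ 3 := by
    intro h
    exact not_colorable_three (SimpleGraph.chromaticNumber_le_iff_colorable.1 h)
  refine le_antisymm h1 ?_
  have h3 : (3 : ℕ∞) < (unitDistanceGraph K).chromaticNumber := not_le.1 h2
  exact (ENat.add_one_le_iff (by decide)).2 h3

end Pool.Agent.Results.MP_52ffe4_co.ChromaticNumberFour
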